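import Mathlib
import Pool.Agent.W856.Corner10

/-!
Corner-free subsets of `F_2^n × F_2^n` which are decided by circuits of bounded depth with AND, OR,
NOT and `MOD p` gates, or all of whose rows (or columns, or diagonals) are decided by such circuits.

The proof combines three ingredients. (a) For a matrix over a field which is supported in a
corner-free set, the number of nonzero entries is at most `2^n` times the dimension of the row
space. (b) Razborov's and Smolensky's approximation of a circuit by a polynomial `g` of low degree
over `Z/p`, with an error set `E` of size `2^n / 4^m` after taking the majority of `2m` independent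
samples. (c) There is a polynomial `h` of degree at most `D` which vanishes on `E` and is nonzero at
half of the points of the row, up to `2^n |E| / ∑_{i ≤ D} C(n, i)` points; the product `g h` is
supported in the row.
-/

namespace Pool.Agent.Results.MP_db4732_co.CircuitLines

open Pool.Agent.W856.Corner

/-- The degree of the polynomials approximating a circuit with `s` AND and OR gates, of depth `d`
and with input nodes of degree `k`; `Nat.clog 2 s` is the least `t` with `s ≤ 2 ^ t`. -/
def circuitDegree (p k s d : ℕ) : ℕ := k * ((p - 1) * (Nat.clog 2 s + 4)) ^ d

/-- Let `A` be a corner-free subset of `(F_2^n)^2`, let `p` be a prime, `k ≥ 1` and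
`M = k ((p - 1) (⌈log_2 s⌉ + 4))^d`. If
1. every row (or every column, or every diagonal) of `A` is a union of `T` sets computed by circuits
   on `n` bits with at most `s` AND and OR gates and with depth at most `d`, in which all the
   `MOD p` gates and all the functions of degree at most `k` over `Z/p` are free in size, or
2. `A` itself is a union of `T` sets computed by such circuits on `2n` bits,
then `|A| ≤ 40000 T M^2 4^n exp(-n / (12800 M^2))`. -/
theorem result (p k s d T n : ℕ) (hp : p.Prime) (hk : 1 ≤ k) (A : Finset (V n × V n))
    (hA : CornerFree A)
    (h : (∃ L : V n → Set (V n), IsLines A L ∧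
        ∀ x, ∃ F : Fin T → Set (V n), (∀ i, Computed p k s d (F i)) ∧ L x = ⋃ i, F i) ∨
      (∃ F : Fin T → Set (V (n + n)), (∀ i, Computed p k s d (F i)) ∧
        ∀ x y, (x, y) ∈ A ↔ ∃ i, Fin.append x y ∈ F i)) :
    (A.card : ℝ) ≤ 40000 * T * (circuitDegree p k s d : ℝ) ^ 2 * 4 ^ n *
      Real.exp (-(n : ℝ) / (12800 * (circuitDegree p k s d : ℝ) ^ 2)) := by
  rcases h with ⟨L, hL, h⟩ | h
  · exact circuit_bound hp hk A hA L hL T h
  · exact circuit_bound' hp hk A hA T h

end Pool.Agent.Results.MP_db4732_co.CircuitLines
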