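import Mathlib
import Pool.Agent.W856.Corner5

/-!
Power-saving bounds for corner-free subsets of `F_2^n × F_2^n` all of whose rows (or all of whose
columns, or all of whose diagonals) are structured: of degree at most `(1/2 - ε) n` over `F_2`, or
with at most `2^((1/2 - ε) n)` nonzero Fourier coefficients, or unions of at most `2^(n/5)` affine
subspaces, or unions of few solution sets of (parity) `k`-CNF formulas. The structured lines may
depend on the line in an arbitrary way.

Idea: fix `y` and let `S` be the set of `x` with `g x y ≠ 0`, where `g x` is a function of degree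
at most `D` supported in the row of `x`. The functions `t ↦ g x (t + y - x)`, `x ∈ S`, restricted
to `S` form an identity matrix, since `g x (x' + y - x) ≠ 0` would give a corner; so they are
linearly independent functions of degree at most `D`.
-/

namespace Pool.Agent.Results.MP_db4732_co.LowDegreeRows

/-- The group `F_2^n`. -/
abbrev V (n : ℕ) := Fin n → ZMod 2

/-- `A` contains no nontrivial corner. -/
def CornerFree {n : ℕ} (A : Finset (V n × V n)) : Prop :=
  ∀ x y z : V n, (x, y) ∈ A → (x, y + z) ∈ A → (x + z, y) ∈ A → z = 0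

/-- `L` is the family of all rows, or of all columns, or of all diagonals of `A`. -/
def IsLines {n : ℕ} (A : Finset (V n × V n)) (L : V n → Set (V n)) : Prop :=
  (∀ s, L s = {y | (s, y) ∈ A}) ∨ (∀ s, L s = {x | (x, s) ∈ A}) ∨
    (∀ s, L s = {y | (s + y, y) ∈ A})

/-- The indicator function of `S` is a polynomial over `F_2` of degree at most `D`. -/
def DegreeAtMost {n : ℕ} (D : ℝ) (S : Set (V n)) : Prop :=
  ∃ p : MvPolynomial (Fin n) (ZMod 2), (p.totalDegree : ℝ) ≤ D ∧
    ∀ y, y ∈ S ↔ MvPolynomial.eval y p ≠ 0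

/-- The Fourier coefficient (times `2^n`) of the indicator function of `S` at the character
`y ↦ (-1)^(a · y)`. -/
noncomputable def fourierCoeff {n : ℕ} (S : Set (V n)) (a : V n) : ℤ :=
  open Classical in ∑ y : V n, if y ∈ S then (if a ⬝ᵥ y = 0 then 1 else -1) else 0

/-- The complement of `S` is a union of (any number of) affine subspaces of codimension at most
`k`; for example `S` is the solution set of a `k`-CNF formula in `n` variables. -/
def ParityCNF {n : ℕ} (k : ℕ) (S : Set (V n)) : Prop :=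
  ∃ B : Set (AffineSubspace (ZMod 2) (V n)),
    (∀ W ∈ B, n ≤ Module.finrank (ZMod 2) W.direction + k) ∧
    S = (⋃ W ∈ B, (W : Set (V n)))ᶜ

/-- 1. If every line of a corner-free set `A` is, up to `E` points, a union of the supports of at
most `T` polynomials of degree at most `D` over `F_2`, then
`|A| ≤ T 2^n ∑_{i ≤ D} C(n, i) + 2^n E`.
2. For every `ε > 0` there is `c > 0` such that `|A| ≤ 4^((1 - c) n)` if every line is a union of
at most `2^(c n)` sets, each of degree at most `(1/2 - ε) n` over `F_2` or with at most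
`2^((1/2 - ε) n)` nonzero Fourier coefficients.
3. If every line is a union of at most `2^(n / 5)` affine subspaces, then
`|A| ≤ 2 * 4^((1 - 1/100) n)`.
4. For every `k` there is `c > 0` such that `|A| ≤ 3 * 4^((1 - c) n)` if every line is a union of
at most `2^(c n)` sets defined by parity `k`-CNF formulas. -/
theorem result :
    (∀ (n T D : ℕ) (E : ℝ) (A : Finset (V n × V n)) (L : V n → Set (V n)),
      CornerFree A → IsLines A L →
      (∀ s, ∃ F : Finset (MvPolynomial (Fin n) (ZMod 2)), F.card ≤ T ∧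
        (∀ p ∈ F, p.totalDegree ≤ D ∧ {y | MvPolynomial.eval y p ≠ 0} ⊆ L s) ∧
        (Set.ncard {y | y ∈ L s ∧ ∀ p ∈ F, MvPolynomial.eval y p = 0} : ℝ) ≤ E) →
      (A.card : ℝ) ≤ T * 2 ^ n * ∑ i ∈ Finset.range (D + 1), (n.choose i : ℝ) + 2 ^ n * E) ∧
    (∀ ε : ℝ, 0 < ε → ∃ c : ℝ, 0 < c ∧
      ∀ (n : ℕ) (A : Finset (V n × V n)) (L : V n → Set (V n)), CornerFree A → IsLines A L →
      (∀ s, ∃ I : Finset (Set (V n)), (I.card : ℝ) ≤ 2 ^ (c * n) ∧
        (∀ S ∈ I, DegreeAtMost ((1 / 2 - ε) * n) S ∨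
          (Nat.card {a : V n // fourierCoeff S a ≠ 0} : ℝ) ≤ 2 ^ ((1 / 2 - ε) * n)) ∧
        L s = ⋃ S ∈ I, S) →
      (A.card : ℝ) ≤ 4 ^ ((1 - c) * n)) ∧
    (∀ (n : ℕ) (A : Finset (V n × V n)) (L : V n → Set (V n)), CornerFree A → IsLines A L →
      (∀ s, ∃ I : Finset (AffineSubspace (ZMod 2) (V n)),
        (I.card : ℝ) ≤ 2 ^ (n / 5 : ℝ) ∧ L s = ⋃ W ∈ I, (W : Set (V n))) →
      (A.card : ℝ) ≤ 2 * 4 ^ ((1 - 1 / 100) * n : ℝ)) ∧
    (∀ k : ℕ, ∃ c : ℝ, 0 < c ∧
      ∀ (n : ℕ) (A : Finset (V n × V n)) (L : V n → Set (V n)), CornerFree A → IsLines A L →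
      (∀ s, ∃ I : Finset (Set (V n)), (I.card : ℝ) ≤ 2 ^ (c * n) ∧
        (∀ S ∈ I, ParityCNF k S) ∧ L s = ⋃ S ∈ I, S) →
      (A.card : ℝ) ≤ 3 * 4 ^ ((1 - c) * n)) := by
  refine ⟨fun n T D E A L hA hL h => Pool.Agent.W856.Corner.lines_bound T D E A hA L hL h,
    fun ε hε => ?_, fun n A L hA hL h => Pool.Agent.W856.Corner.affine_lines n A hA L hL h,
    fun k => ?_⟩
  · obtain ⟨c, hc, h⟩ := Pool.Agent.W856.Corner.low_degree ε hε
    exact ⟨c, hc, fun n A L hA hL hI => h n A hA L hL hI⟩
  · obtain ⟨c, hc, h⟩ := Pool.Agent.W856.Corner.cnf_lines k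
    exact ⟨c, hc, fun n A L hA hL hI => h n A hA L hL hI⟩

end Pool.Agent.Results.MP_db4732_co.LowDegreeRows
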